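import Mathlib

/-!
# Coarse structures on linearly ordered sets: definitions
-/

universe u v

namespace Q184.LinCoarse

variable {X : Type u} {Y : Type v}

/-- A coarse structure: every entourage contains the diagonal; closed under composition and
inversion; every set between the diagonal and an entourage is an entourage. -/
structure IsCoarse (𝓔 : Set (Set (X × X))) : Prop where
  diag : ∀ E ∈ 𝓔, ∀ x, (x, x) ∈ E
  comp : ∀ E ∈ 𝓔, ∀ F ∈ 𝓔, {p : X × X | ∃ y, (p.1, y) ∈ E ∧ (y, p.2) ∈ F} ∈ 𝓔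
  inv : ∀ E ∈ 𝓔, {p : X × X | (p.2, p.1) ∈ E} ∈ 𝓔
  subset : ∀ E ∈ 𝓔, ∀ E', (∀ x, (x, x) ∈ E') → E' ⊆ E → E' ∈ 𝓔

/-- `E[x] = {y : (x, y) ∈ E}`. -/
def ball (E : Set (X × X)) (x : X) : Set X := {y | (x, y) ∈ E}

/-- Connected coarse structures. -/
def IsConnected (𝓔 : Set (Set (X × X))) : Prop := ∀ x y, ∃ E ∈ 𝓔, y ∈ ball E x

/-- `𝓑` is a base of `𝓔`. -/
def IsBase (𝓔 𝓑 : Set (Set (X × X))) : Prop := 𝓑 ⊆ 𝓔 ∧ ∀ E ∈ 𝓔, ∃ B ∈ 𝓑, E ⊆ B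

/-- The linear order of `X` is compatible with `𝓔`: for every `E ∈ 𝓔` there is `F ∈ 𝓔` such that
whenever `x < y` and `y ∉ F[x]`, every `x' ∈ E[x]` satisfies `x' < y`. -/
def Compatible [LinearOrder X] (𝓔 : Set (Set (X × X))) : Prop :=
  ∀ E ∈ 𝓔, ∃ F ∈ 𝓔, ∀ x y, x < y → y ∉ ball F x → ∀ x' ∈ ball E x, x' < y

/-- `𝓔` has an interval base: a base all of whose balls are intervals `[a, b]` with `a ≤ b`. -/
def HasIntervalBase [LinearOrder X] (𝓔 : Set (Set (X × X))) : Prop :=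
  ∃ 𝓑, IsBase 𝓔 𝓑 ∧ ∀ B ∈ 𝓑, ∀ x, ∃ a b, a ≤ b ∧ ball B x = Set.Icc a b

/-- The subspace structure on `Y ⊆ X`. -/
def subspace (𝓔 : Set (Set (X × X))) (Y : Set X) : Set (Set (Y × Y)) :=
  {E' | ∃ E ∈ 𝓔, E' = {p : Y × Y | (p.1.1, p.2.1) ∈ E}}

/-- Macro-uniform maps. -/
def MacroUniform (𝓔 : Set (Set (X × X))) (𝓕 : Set (Set (Y × Y))) (f : X → Y) : Prop :=
  ∀ E ∈ 𝓔, ∃ F ∈ 𝓕, ∀ x, f '' ball E x ⊆ ball F (f x)

end Q184.LinCoarse
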