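import Mathlib
import Pool.Agent.Q184.LinCoarse.Defs

/-!
# Every linearly ordered coarse space embeds into one with an interval base
-/

universe u

open Filter Set

namespace Q184.LinCoarse

variable {X : Type u} [LinearOrder X]

/-- Cuts without maximum on the left with a bounded left tail. -/
structure Lo (𝓔 : Set (Set (X × X))) where
  L : LowerSet X
  ne : ∃ x, x ∈ L
  nomax : ∀ x ∈ L, ∃ y ∈ L, x < y
  bdd : ∃ E ∈ 𝓔, ∃ x₀ x₁, x₁ ∈ L ∧ ∀ y ∈ L, x₁ ≤ y → (x₀, y) ∈ E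

/-- Cuts without minimum on the right with a bounded right tail. -/
structure Hi (𝓔 : Set (Set (X × X))) where
  L : LowerSet X
  ne : ∃ x, x ∉ L
  nomin : ∀ x, x ∉ L → ∃ y, y ∉ L ∧ y < x
  bdd : ∃ E ∈ 𝓔, ∃ x₀ x₁, x₁ ∉ L ∧ ∀ y, y ∉ L → y ≤ x₁ → (x₀, y) ∈ E

/-- The extended set. -/
inductive Z (𝓔 : Set (Set (X × X))) : Type u
  | pt (x : X) : Z 𝓔
  | lo (l : Lo 𝓔) : Z 𝓔
  | hi (h : Hi 𝓔) : Z 𝓔

variable {𝓔 : Set (Set (X × X))}

namespace Z

/-- The position of a point. -/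
def pos : Z 𝓔 → LowerSet X ×ₗ ℕ
  | pt x => toLex (LowerSet.Iic x, 0)
  | lo l => toLex (l.L, 1)
  | hi h => toLex (h.L, 2)

theorem pos_injective : Function.Injective (pos : Z 𝓔 → LowerSet X ×ₗ ℕ) := by
  intro z w h
  cases z with
  | pt x =>
    cases w with
    | pt y =>
      have h1 : LowerSet.Iic x = LowerSet.Iic y := congrArg (fun p => (ofLex p).1) h
      have hx : x ∈ LowerSet.Iic y := by rw [← h1]; exact LowerSet.mem_Iic_iff.mpr le_rfl
      have hy : y ∈ LowerSet.Iic x := by rw [h1]; exact LowerSet.mem_Iic_iff.mpr le_rfl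
      rw [le_antisymm (LowerSet.mem_Iic_iff.mp hx) (LowerSet.mem_Iic_iff.mp hy)]
    | lo l => exact absurd (congrArg (fun p => (ofLex p).2) h) (by simp [pos])
    | hi l => exact absurd (congrArg (fun p => (ofLex p).2) h) (by simp [pos])
  | lo l =>
    cases w with
    | pt y => exact absurd (congrArg (fun p => (ofLex p).2) h) (by simp [pos])
    | lo l' =>
      have h1 : l.L = l'.L := congrArg (fun p => (ofLex p).1) h
      cases l; cases l'; simp only at h1; subst h1; rfl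
    | hi l => exact absurd (congrArg (fun p => (ofLex p).2) h) (by simp [pos])
  | hi l =>
    cases w with
    | pt y => exact absurd (congrArg (fun p => (ofLex p).2) h) (by simp [pos])
    | lo l' => exact absurd (congrArg (fun p => (ofLex p).2) h) (by simp [pos])
    | hi l' =>
      have h1 : l.L = l'.L := congrArg (fun p => (ofLex p).1) h
      cases l; cases l'; simp only at h1; subst h1; rfl

noncomputable instance : LinearOrder (Z 𝓔) := LinearOrder.lift' pos pos_injective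

theorem lt_def (z w : Z 𝓔) : z < w ↔ pos z < pos w := Iff.rfl
theorem le_def (z w : Z 𝓔) : z ≤ w ↔ pos z ≤ pos w := Iff.rfl

open Classical in
/-- The net attached to a lower cut. -/
noncomputable def loNet (l : Lo 𝓔) (i : Finset X) : X :=
  if h : (i.filter (· ∈ l.L)).Nonempty then (i.filter (· ∈ l.L)).max' h else l.ne.choose

open Classical in
/-- The net attached to an upper cut. -/
noncomputable def hiNet (k : Hi 𝓔) (i : Finset X) : X :=
  if h : (i.filter (· ∉ k.L)).Nonempty then (i.filter (· ∉ k.L)).min' h else k.ne.choose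

/-- The net attached to a point. -/
noncomputable def net : Z 𝓔 → Finset X → X
  | pt x, _ => x
  | lo l, i => loNet l i
  | hi k, i => hiNet k i

theorem net_lo_mem (l : Lo 𝓔) (i : Finset X) : net (lo l) i ∈ l.L := by
  classical
  change loNet l i ∈ l.L
  unfold loNet
  split_ifs with h
  · exact (Finset.mem_filter.mp (Finset.max'_mem _ h)).2
  · exact l.ne.choose_spec

theorem net_hi_notMem (k : Hi 𝓔) (i : Finset X) : net (hi k) i ∉ k.L := by
  classical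
  change hiNet k i ∉ k.L
  unfold hiNet
  split_ifs with h
  · exact (Finset.mem_filter.mp (Finset.min'_mem _ h)).2
  · exact k.ne.choose_spec

theorem eventually_le_net_lo (l : Lo 𝓔) {x : X} (hx : x ∈ l.L) :
    ∀ᶠ i in atTop, x ≤ net (lo l) i := by
  classical
  filter_upwards [eventually_ge_atTop ({x} : Finset X)] with i hi
  have hxi : x ∈ i := hi (Finset.mem_singleton_self x)
  have hmem : x ∈ i.filter (· ∈ l.L) := Finset.mem_filter.mpr ⟨hxi, hx⟩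
  have hne : (i.filter (· ∈ l.L)).Nonempty := ⟨x, hmem⟩
  change x ≤ loNet l i
  unfold loNet
  rw [dif_pos (by convert hne)]
  exact Finset.le_max' _ _ (by convert hmem)

theorem eventually_net_hi_le (k : Hi 𝓔) {x : X} (hx : x ∉ k.L) :
    ∀ᶠ i in atTop, net (hi k) i ≤ x := by
  classical
  filter_upwards [eventually_ge_atTop ({x} : Finset X)] with i hi
  have hxi : x ∈ i := hi (Finset.mem_singleton_self x)
  have hmem : x ∈ i.filter (· ∉ k.L) := Finset.mem_filter.mpr ⟨hxi, hx⟩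
  have hne : (i.filter (· ∉ k.L)).Nonempty := ⟨x, hmem⟩
  change hiNet k i ≤ x
  unfold hiNet
  rw [dif_pos (by convert hne)]
  exact Finset.min'_le _ _ (by convert hmem)

theorem lowerSet_le_of_not {L K : LowerSet X} (h : ¬ K ≤ L) : ∃ x, x ∈ K ∧ x ∉ L := by
  by_contra hcon
  push Not at hcon
  exact h fun x hx => hcon x hx

theorem lt_iff (z w : Z 𝓔) : z < w ↔
    (ofLex (pos z)).1 < (ofLex (pos w)).1 ∨
      (ofLex (pos z)).1 = (ofLex (pos w)).1 ∧ (ofLex (pos z)).2 < (ofLex (pos w)).2 := by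
  rw [lt_def]
  exact Prod.Lex.lt_iff

theorem le_iff (z w : Z 𝓔) : z ≤ w ↔
    (ofLex (pos z)).1 < (ofLex (pos w)).1 ∨
      (ofLex (pos z)).1 = (ofLex (pos w)).1 ∧ (ofLex (pos z)).2 ≤ (ofLex (pos w)).2 := by
  rw [le_def]
  exact Prod.Lex.le_iff

/-- strict inequalities are eventually strict inequalities of the nets -/
theorem eventually_lt {z w : Z 𝓔} (h : z < w) : ∀ᶠ i in atTop, net z i < net w i := by
  rw [lt_iff] at h
  cases z with
  | pt x =>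
    cases w with
    | pt y =>
      refine Eventually.of_forall fun i => ?_
      change x < y
      rcases h with h | h
      · by_contra hcon
        exact absurd h (not_lt.mpr (LowerSet.Iic_le.mpr (LowerSet.mem_Iic_iff.mpr (not_lt.mp hcon))))
      · exact absurd h.2 (lt_irrefl 0)
    | lo l =>
      have hx : x ∈ l.L := by
        have : LowerSet.Iic x ≤ l.L := by
          rcases h with h | h
          · exact h.le
          · exact h.1.le
        exact this (LowerSet.mem_Iic_iff.mpr le_rfl)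
      obtain ⟨y, hy, hxy⟩ := l.nomax x hx
      filter_upwards [eventually_le_net_lo l hy] with i hi
      exact lt_of_lt_of_le hxy hi
    | hi k =>
      have hx : x ∈ k.L := by
        have : LowerSet.Iic x ≤ k.L := by
          rcases h with h | h
          · exact h.le
          · exact h.1.le
        exact this (LowerSet.mem_Iic_iff.mpr le_rfl)
      refine Eventually.of_forall fun i => ?_
      change x < net (hi k) i
      by_contra hcon
      exact net_hi_notMem k i (k.L.lower (not_lt.mp hcon) hx)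
  | lo l =>
    cases w with
    | pt y =>
      have hy : y ∉ l.L := by
        intro hy
        have h1 : LowerSet.Iic y ≤ l.L := LowerSet.Iic_le.mpr hy
        rcases h with h | h
        · exact absurd h (not_lt.mpr h1)
        · exact absurd h.2 (by simp [pos])
      refine Eventually.of_forall fun i => ?_
      change net (lo l) i < y
      by_contra hcon
      exact hy (l.L.lower (not_lt.mp hcon) (net_lo_mem l i))
    | lo l' =>
      have h1 : l.L < l'.L := by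
        rcases h with h | h
        · exact h
        · exact absurd h.2 (by simp [pos])
      obtain ⟨y, hy, hy'⟩ := lowerSet_le_of_not (not_le.mpr h1)
      filter_upwards [eventually_le_net_lo l' hy] with i hi
      refine lt_of_lt_of_le ?_ hi
      by_contra hcon
      exact hy' (l.L.lower (not_lt.mp hcon) (net_lo_mem l i))
    | hi k =>
      have h1 : l.L ≤ k.L := by
        rcases h with h | h
        · exact h.le
        · exact h.1.le
      refine Eventually.of_forall fun i => ?_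
      by_contra hcon
      exact net_hi_notMem k i (k.L.lower (not_lt.mp hcon) (h1 (net_lo_mem l i)))
  | hi k =>
    cases w with
    | pt y =>
      have hy : y ∉ k.L := by
        intro hy
        have h1 : LowerSet.Iic y ≤ k.L := LowerSet.Iic_le.mpr hy
        rcases h with h | h
        · exact absurd h (not_lt.mpr h1)
        · exact absurd h.2 (by simp [pos])
      obtain ⟨x, hx, hxy⟩ := k.nomin y hy
      filter_upwards [eventually_net_hi_le k hx] with i hi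
      exact lt_of_le_of_lt hi hxy
    | lo l =>
      have h1 : k.L < l.L := by
        rcases h with h | h
        · exact h
        · exact absurd h.2 (by simp [pos])
      obtain ⟨y, hy, hy'⟩ := lowerSet_le_of_not (not_le.mpr h1)
      obtain ⟨y', hy1, hyy⟩ := l.nomax y hy
      filter_upwards [eventually_le_net_lo l hy1, eventually_net_hi_le k hy'] with i hi hi'
      exact lt_of_le_of_lt hi' (lt_of_lt_of_le hyy hi)
    | hi k' =>
      have h1 : k.L < k'.L := by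
        rcases h with h | h
        · exact h
        · exact absurd h.2 (by simp [pos])
      obtain ⟨y, hy, hy'⟩ := lowerSet_le_of_not (not_le.mpr h1)
      filter_upwards [eventually_net_hi_le k hy'] with i hi
      refine lt_of_le_of_lt hi ?_
      by_contra hcon
      exact net_hi_notMem k' i (k'.L.lower (not_lt.mp hcon) hy)

theorem eventually_le {z w : Z 𝓔} (h : z ≤ w) : ∀ᶠ i in atTop, net z i ≤ net w i := by
  rcases h.lt_or_eq with h | h
  · exact (eventually_lt h).mono fun i hi => hi.le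
  · subst h
    exact Eventually.of_forall fun i => le_rfl

theorem pt_lt_pt {x y : X} (h : x < y) : (pt x : Z 𝓔) < pt y := by
  rw [lt_iff]
  left
  refine lt_of_le_of_ne (LowerSet.Iic_le.mpr (LowerSet.mem_Iic_iff.mpr h.le)) ?_
  intro heq
  have : y ∈ LowerSet.Iic x := by
    have h1 : LowerSet.Iic x = LowerSet.Iic y := heq
    rw [h1]
    exact LowerSet.mem_Iic_iff.mpr le_rfl
  exact absurd (LowerSet.mem_Iic_iff.mp this) (not_le.mpr h)

theorem pt_le_pt {x y : X} (h : x ≤ y) : (pt x : Z 𝓔) ≤ pt y := by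
  rcases h.lt_or_eq with h | h
  · exact (pt_lt_pt h).le
  · rw [h]

theorem lt_of_pt_lt_pt {x y : X} (h : (pt x : Z 𝓔) < pt y) : x < y := by
  by_contra hcon
  exact absurd h (not_lt.mpr (pt_le_pt (not_lt.mp hcon)))

theorem pt_le_lo (l : Lo 𝓔) {x : X} (hx : x ∈ l.L) : (pt x : Z 𝓔) ≤ lo l := by
  rw [le_iff]
  rcases (LowerSet.Iic_le.mpr hx).lt_or_eq with h | h
  · exact Or.inl h
  · exact Or.inr ⟨h, by simp [pos]⟩

theorem hi_le_pt (k : Hi 𝓔) {x : X} (hx : x ∉ k.L) : (hi k : Z 𝓔) ≤ pt x := by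
  rw [le_iff]
  left
  change k.L < LowerSet.Iic x
  by_contra hcon
  exact hx (LowerSet.Iic_le.mp (not_lt.mp hcon))

/-- a point of `X` inside every three-element chain -/
theorem exists_pt {w₁ w₂ w₃ : Z 𝓔} (h₁ : w₁ < w₂) (h₂ : w₂ < w₃) :
    ∃ x, w₁ ≤ pt x ∧ (pt x : Z 𝓔) ≤ w₃ := by
  rw [lt_iff] at h₁ h₂
  by_cases hL : (ofLex (pos w₁)).1 < (ofLex (pos w₃)).1
  · obtain ⟨x, hx, hx'⟩ := lowerSet_le_of_not (not_le.mpr hL)
    refine ⟨x, ?_, ?_⟩
    · rw [le_iff]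
      left
      change (ofLex (pos w₁)).1 < LowerSet.Iic x
      by_contra hcon
      exact hx' (LowerSet.Iic_le.mp (not_lt.mp hcon))
    · rw [le_iff]
      change LowerSet.Iic x < _ ∨ LowerSet.Iic x = _ ∧ 0 ≤ _
      rcases (LowerSet.Iic_le.mpr hx).lt_or_eq with h | h
      · exact Or.inl h
      · exact Or.inr ⟨h, Nat.zero_le _⟩
  · have h3 : (ofLex (pos w₃)).1 ≤ (ofLex (pos w₁)).1 := not_lt.mp hL
    have h12 : (ofLex (pos w₁)).1 = (ofLex (pos w₂)).1 ∧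
        (ofLex (pos w₁)).2 < (ofLex (pos w₂)).2 := by
      rcases h₁ with h | h
      · exfalso
        have h4 : (ofLex (pos w₂)).1 ≤ (ofLex (pos w₃)).1 := by
          rcases h₂ with h' | h'
          · exact h'.le
          · exact h'.1.le
        exact absurd (lt_of_lt_of_le h h4) hL
      · exact h
    have h23 : (ofLex (pos w₂)).2 < (ofLex (pos w₃)).2 := by
      rcases h₂ with h' | h'
      · exfalso
        rw [← h12.1] at h'
        exact hL h'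
      · exact h'.2
    have hle : ∀ w : Z 𝓔, (ofLex (pos w)).2 ≤ 2 := by
      intro w
      cases w <;> simp [pos]
    have h0 : (ofLex (pos w₁)).2 = 0 := by
      have := hle w₃
      omega
    cases w₁ with
    | pt x =>
      refine ⟨x, le_rfl, ?_⟩
      have h13 : (pt x : Z 𝓔) < w₃ := by
        have a1 : (pt x : Z 𝓔) < w₂ := by rw [lt_iff]; exact h₁
        have a2 : w₂ < w₃ := by rw [lt_iff]; exact h₂
        exact a1.trans a2
      exact h13.le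
    | lo l => simp [pos] at h0
    | hi k => simp [pos] at h0

end Z

open Z

/-- the extension of an entourage -/
def ext (E : Set (X × X)) : Set (Z 𝓔 × Z 𝓔) :=
  {p | ∀ᶠ i in atTop, (net p.1 i, net p.2 i) ∈ E}

/-- the extended coarse structure -/
def extStr (𝓔 : Set (Set (X × X))) : Set (Set (Z 𝓔 × Z 𝓔)) :=
  {S | (∀ z, (z, z) ∈ S) ∧ ∃ E ∈ 𝓔, S ⊆ ext E}

theorem extStr_coarse (h : IsCoarse 𝓔) : IsCoarse (extStr 𝓔) where
  diag S hS z := hS.1 z
  comp := by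
    rintro S ⟨hS, E, hE, hSE⟩ T ⟨hT, F, hF, hTF⟩
    refine ⟨fun z => ⟨z, hS z, hT z⟩, _, h.comp E hE F hF, ?_⟩
    rintro ⟨z, w⟩ ⟨v, h1, h2⟩
    filter_upwards [hSE h1, hTF h2] with i hi hi'
    exact ⟨_, hi, hi'⟩
  inv := by
    rintro S ⟨hS, E, hE, hSE⟩
    refine ⟨fun z => hS z, _, h.inv E hE, ?_⟩
    rintro ⟨z, w⟩ h1
    filter_upwards [hSE h1] with i hi
    exact hi
  subset := by
    rintro S ⟨hS, E, hE, hSE⟩ S' hd hsub
    exact ⟨hd, E, hE, hsub.trans hSE⟩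

theorem ext_mem (h : IsCoarse 𝓔) {E : Set (X × X)} (hE : E ∈ 𝓔) :
    (ext E : Set (Z 𝓔 × Z 𝓔)) ∈ extStr 𝓔 :=
  ⟨fun _ => Eventually.of_forall fun _ => h.diag E hE _, E, hE, Subset.rfl⟩

theorem exists_base (hc : IsConnected 𝓔) (z : Z 𝓔) :
    ∃ E ∈ 𝓔, ∃ x₀ : X, ((pt x₀, z) : Z 𝓔 × Z 𝓔) ∈ (ext E : Set (Z 𝓔 × Z 𝓔)) := by
  cases z with
  | pt x =>
    obtain ⟨E, hE, hx⟩ := hc x x
    exact ⟨E, hE, x, Eventually.of_forall fun i => hx⟩
  | lo l =>
    obtain ⟨E, hE, x₀, x₁, hx₁, hb⟩ := l.bdd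
    refine ⟨E, hE, x₀, ?_⟩
    change ∀ᶠ i in atTop, (x₀, net (lo l) i) ∈ E
    filter_upwards [eventually_le_net_lo l hx₁] with i hi
    exact hb _ (net_lo_mem l i) hi
  | hi k =>
    obtain ⟨E, hE, x₀, x₁, hx₁, hb⟩ := k.bdd
    refine ⟨E, hE, x₀, ?_⟩
    change ∀ᶠ i in atTop, (x₀, net (hi k) i) ∈ E
    filter_upwards [eventually_net_hi_le k hx₁] with i hi
    exact hb _ (net_hi_notMem k i) hi

theorem extStr_connected (h𝓔 : IsCoarse 𝓔) (hc : IsConnected 𝓔) : IsConnected (extStr 𝓔) := by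
  intro z w
  obtain ⟨E, hE, x, hx⟩ := exists_base hc z
  obtain ⟨F, hF, y, hy⟩ := exists_base hc w
  obtain ⟨G, hG, hxy⟩ := hc x y
  refine ⟨_, ext_mem h𝓔 (h𝓔.comp _ (h𝓔.inv E hE) _ (h𝓔.comp G hG F hF)), ?_⟩
  change ∀ᶠ i in atTop, _
  filter_upwards [hx, hy] with i hi hi'
  exact ⟨x, hi, y, hxy, hi'⟩

/-- convex hulls of entourages are entourages -/
theorem exists_convex (h𝓔 : IsCoarse 𝓔) (hcomp : Compatible 𝓔) {E : Set (X × X)} (hE : E ∈ 𝓔) :
    ∃ G ∈ 𝓔, E ⊆ G ∧ ∀ x a y b, (x, a) ∈ G → (x, b) ∈ G → a ≤ y → y ≤ b → (x, y) ∈ G := by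
  obtain ⟨F, hF, hEF⟩ := hcomp E hE
  obtain ⟨F', hF', hEF'⟩ := hcomp _ (h𝓔.inv E hE)
  set G : Set (X × X) := {p | ∃ a b, (p.1, a) ∈ E ∧ (p.1, b) ∈ E ∧ a ≤ p.2 ∧ p.2 ≤ b} with hG
  have hsub : G ⊆ {p : X × X | ∃ y, (p.1, y) ∈ F ∧
      (y, p.2) ∈ {p : X × X | ∃ y, (p.1, y) ∈ E ∧ (y, p.2) ∈ F'}} := by
    rintro ⟨x, y⟩ ⟨a, b, ha, hb, hay, hyb⟩
    simp only at ha hb hay hyb
    rcases lt_trichotomy x y with hxy | hxy | hxy
    · have h1 : (x, y) ∈ F := by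
        by_contra hcon
        exact absurd (hEF x y hxy hcon b hb) (not_lt.mpr hyb)
      exact ⟨y, h1, y, h𝓔.diag E hE y, h𝓔.diag F' hF' y⟩
    · subst hxy
      exact ⟨x, h𝓔.diag F hF x, x, h𝓔.diag E hE x, h𝓔.diag F' hF' x⟩
    · refine ⟨x, h𝓔.diag F hF x, ?_⟩
      rcases hay.lt_or_eq with hay' | hay'
      · have h1 : (a, y) ∈ F' := by
          by_contra hcon
          exact absurd (hEF' a y hay' hcon x ha) (not_lt.mpr hxy.le)
        exact ⟨a, ha, h1⟩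
      · subst hay'
        exact ⟨a, ha, h𝓔.diag F' hF' a⟩
  refine ⟨G, h𝓔.subset _ (h𝓔.comp F hF _ (h𝓔.comp E hE F' hF')) G ?_ hsub, ?_, ?_⟩
  · intro x
    exact ⟨x, x, h𝓔.diag E hE x, h𝓔.diag E hE x, le_rfl, le_rfl⟩
  · rintro ⟨x, y⟩ h
    exact ⟨y, y, h, h, le_rfl, le_rfl⟩
  · rintro x a y b ⟨a1, b1, h1, h2, h3, h4⟩ ⟨a2, b2, h5, h6, h7, h8⟩ hay hyb
    exact ⟨a1, b2, h1, h6, le_trans h3 hay, le_trans hyb h8⟩

/-- the triple composition -/
def triple (G : Set (X × X)) : Set (X × X) :=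
  {p | ∃ y, (p.1, y) ∈ G ∧ (y, p.2) ∈ {p : X × X | ∃ y, (p.1, y) ∈ {p : X × X | (p.2, p.1) ∈ G} ∧
    (y, p.2) ∈ G}}

omit [LinearOrder X] in
theorem triple_mem (h𝓔 : IsCoarse 𝓔) {G : Set (X × X)} (hG : G ∈ 𝓔) : triple G ∈ 𝓔 :=
  h𝓔.comp G hG _ (h𝓔.comp _ (h𝓔.inv G hG) G hG)

omit [LinearOrder X] in
theorem subset_triple (h𝓔 : IsCoarse 𝓔) {G : Set (X × X)} (hG : G ∈ 𝓔) : G ⊆ triple G := by
  rintro ⟨x, y⟩ h
  exact ⟨y, h, y, h𝓔.diag G hG y, h𝓔.diag G hG y⟩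

theorem exists_upper (h𝓔 : IsCoarse 𝓔) {G : Set (X × X)} (hG : G ∈ 𝓔)
    (hconv : ∀ x a y b, (x, a) ∈ G → (x, b) ∈ G → a ≤ y → y ≤ b → (x, y) ∈ G) (z : Z 𝓔) :
    ∃ b : Z 𝓔, (z, b) ∈ (ext (triple G) : Set (Z 𝓔 × Z 𝓔)) ∧
      ∀ w, (z, w) ∈ (ext G : Set (Z 𝓔 × Z 𝓔)) → w ≤ b := by
  have hmono : ∀ w, (z, w) ∈ (ext G : Set (Z 𝓔 × Z 𝓔)) →
      (z, w) ∈ (ext (triple G) : Set (Z 𝓔 × Z 𝓔)) := by
    intro w hw
    filter_upwards [hw] with i hi
    exact subset_triple h𝓔 hG hi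
  have hz : (z, z) ∈ (ext G : Set (Z 𝓔 × Z 𝓔)) := Eventually.of_forall fun _ => h𝓔.diag G hG _
  have hcv : ∀ a w b : Z 𝓔, (z, a) ∈ (ext G : Set (Z 𝓔 × Z 𝓔)) →
      (z, b) ∈ (ext G : Set (Z 𝓔 × Z 𝓔)) → a ≤ w → w ≤ b →
      (z, w) ∈ (ext G : Set (Z 𝓔 × Z 𝓔)) := by
    intro a w b ha hb haw hwb
    filter_upwards [ha, hb, eventually_le haw, eventually_le hwb] with i h1 h2 h3 h4
    exact hconv _ _ _ _ h1 h2 h3 h4
  by_cases hmax : ∃ b, (z, b) ∈ (ext G : Set (Z 𝓔 × Z 𝓔)) ∧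
      ∀ w, (z, w) ∈ (ext G : Set (Z 𝓔 × Z 𝓔)) → w ≤ b
  · obtain ⟨b, hb, hb'⟩ := hmax
    exact ⟨b, hmono b hb, hb'⟩
  · push Not at hmax
    -- points of `X` are cofinal
    have hcof : ∀ w, (z, w) ∈ (ext G : Set (Z 𝓔 × Z 𝓔)) →
        ∃ x, (z, pt x) ∈ (ext G : Set (Z 𝓔 × Z 𝓔)) ∧ w < pt x := by
      intro w hw
      obtain ⟨w1, hw1, h1⟩ := hmax w hw
      obtain ⟨w2, hw2, h2⟩ := hmax w1 hw1
      obtain ⟨w3, hw3, h3⟩ := hmax w2 hw2
      obtain ⟨x, hx1, hx2⟩ := exists_pt h2 h3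
      exact ⟨x, hcv w1 _ w3 hw1 hw3 hx1 hx2, lt_of_lt_of_le h1 hx1⟩
    let K : LowerSet X :=
      { carrier := {x | ∃ y, x ≤ y ∧ (z, pt y) ∈ (ext G : Set (Z 𝓔 × Z 𝓔))}
        lower' := by
          rintro a b hba ⟨y, hy, hy'⟩
          exact ⟨y, hba.trans hy, hy'⟩ }
    obtain ⟨y0, hy0, -⟩ := hcof z hz
    have hmem0 : y0 ∈ K := ⟨y0, le_rfl, hy0⟩
    have htail : ∀ y ∈ K, y0 ≤ y →
        (y0, y) ∈ {p : X × X | ∃ y, (p.1, y) ∈ {p : X × X | (p.2, p.1) ∈ G} ∧ (y, p.2) ∈ G} := by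
      rintro y ⟨y', hyy', hy'⟩ hy0y
      have h1 := hcv (pt y0) (pt y) (pt y') hy0 hy' (pt_le_pt hy0y) (pt_le_pt hyy')
      obtain ⟨i, hi1, hi2⟩ := (hy0.and h1).exists
      exact ⟨net z i, hi1, hi2⟩
    let l : Lo 𝓔 :=
      { L := K
        ne := ⟨y0, hmem0⟩
        nomax := by
          rintro x ⟨y, hxy, hy⟩
          obtain ⟨x', hx', hlt⟩ := hcof _ hy
          exact ⟨x', ⟨x', le_rfl, hx'⟩, lt_of_le_of_lt hxy (lt_of_pt_lt_pt hlt)⟩
        bdd := ⟨_, h𝓔.comp _ (h𝓔.inv G hG) G hG, y0, y0, hmem0, htail⟩ }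
    refine ⟨lo l, ?_, ?_⟩
    · change ∀ᶠ i in atTop, (net z i, net (lo l) i) ∈ triple G
      filter_upwards [hy0, eventually_le_net_lo l hmem0] with i h1 h2
      exact ⟨y0, h1, htail _ (net_lo_mem l i) h2⟩
    · intro w hw
      obtain ⟨x, hx, hlt⟩ := hcof w hw
      exact hlt.le.trans (pt_le_lo l ⟨x, le_rfl, hx⟩)

theorem exists_lower (h𝓔 : IsCoarse 𝓔) {G : Set (X × X)} (hG : G ∈ 𝓔)
    (hconv : ∀ x a y b, (x, a) ∈ G → (x, b) ∈ G → a ≤ y → y ≤ b → (x, y) ∈ G) (z : Z 𝓔) :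
    ∃ b : Z 𝓔, (z, b) ∈ (ext (triple G) : Set (Z 𝓔 × Z 𝓔)) ∧
      ∀ w, (z, w) ∈ (ext G : Set (Z 𝓔 × Z 𝓔)) → b ≤ w := by
  have hmono : ∀ w, (z, w) ∈ (ext G : Set (Z 𝓔 × Z 𝓔)) →
      (z, w) ∈ (ext (triple G) : Set (Z 𝓔 × Z 𝓔)) := by
    intro w hw
    filter_upwards [hw] with i hi
    exact subset_triple h𝓔 hG hi
  have hz : (z, z) ∈ (ext G : Set (Z 𝓔 × Z 𝓔)) := Eventually.of_forall fun _ => h𝓔.diag G hG _
  have hcv : ∀ a w b : Z 𝓔, (z, a) ∈ (ext G : Set (Z 𝓔 × Z 𝓔)) →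
      (z, b) ∈ (ext G : Set (Z 𝓔 × Z 𝓔)) → a ≤ w → w ≤ b →
      (z, w) ∈ (ext G : Set (Z 𝓔 × Z 𝓔)) := by
    intro a w b ha hb haw hwb
    filter_upwards [ha, hb, eventually_le haw, eventually_le hwb] with i h1 h2 h3 h4
    exact hconv _ _ _ _ h1 h2 h3 h4
  by_cases hmin : ∃ b, (z, b) ∈ (ext G : Set (Z 𝓔 × Z 𝓔)) ∧
      ∀ w, (z, w) ∈ (ext G : Set (Z 𝓔 × Z 𝓔)) → b ≤ w
  · obtain ⟨b, hb, hb'⟩ := hmin
    exact ⟨b, hmono b hb, hb'⟩
  · push Not at hmin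
    have hcof : ∀ w, (z, w) ∈ (ext G : Set (Z 𝓔 × Z 𝓔)) →
        ∃ x, (z, pt x) ∈ (ext G : Set (Z 𝓔 × Z 𝓔)) ∧ pt x < w := by
      intro w hw
      obtain ⟨w1, hw1, h1⟩ := hmin w hw
      obtain ⟨w2, hw2, h2⟩ := hmin w1 hw1
      obtain ⟨w3, hw3, h3⟩ := hmin w2 hw2
      obtain ⟨x, hx1, hx2⟩ := exists_pt h3 h2
      exact ⟨x, hcv w3 _ w1 hw3 hw1 hx1 hx2, lt_of_le_of_lt hx2 h1⟩
    let K : LowerSet X :=
      { carrier := {x | ∀ y, (z, pt y) ∈ (ext G : Set (Z 𝓔 × Z 𝓔)) → x < y}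
        lower' := by
          intro a b hba ha y hy
          exact lt_of_le_of_lt hba (ha y hy) }
    have hKc : ∀ x, x ∉ K ↔ ∃ y, (z, pt y) ∈ (ext G : Set (Z 𝓔 × Z 𝓔)) ∧ y ≤ x := by
      intro x
      constructor
      · intro hx
        by_contra hcon
        push Not at hcon
        exact hx fun y hy => hcon y hy
      · rintro ⟨y, hy, hyx⟩ hx
        exact absurd (hx y hy) (not_lt.mpr hyx)
    obtain ⟨y0, hy0, -⟩ := hcof z hz
    have hmem0 : y0 ∉ K := (hKc y0).mpr ⟨y0, hy0, le_rfl⟩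
    have htail : ∀ y, y ∉ K → y ≤ y0 →
        (y0, y) ∈ {p : X × X | ∃ y, (p.1, y) ∈ {p : X × X | (p.2, p.1) ∈ G} ∧ (y, p.2) ∈ G} := by
      intro y hy hyy0
      obtain ⟨y', hy', hyy'⟩ := (hKc y).mp hy
      have h1 := hcv (pt y') (pt y) (pt y0) hy' hy0 (pt_le_pt hyy') (pt_le_pt hyy0)
      obtain ⟨i, hi1, hi2⟩ := (hy0.and h1).exists
      exact ⟨net z i, hi1, hi2⟩
    let k : Hi 𝓔 :=
      { L := K
        ne := ⟨y0, hmem0⟩
        nomin := by
          intro x hx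
          obtain ⟨y, hy, hyx⟩ := (hKc x).mp hx
          obtain ⟨x', hx', hlt⟩ := hcof _ hy
          exact ⟨x', (hKc x').mpr ⟨x', hx', le_rfl⟩, lt_of_lt_of_le (lt_of_pt_lt_pt hlt) hyx⟩
        bdd := ⟨_, h𝓔.comp _ (h𝓔.inv G hG) G hG, y0, y0, hmem0, htail⟩ }
    refine ⟨hi k, ?_, ?_⟩
    · change ∀ᶠ i in atTop, (net z i, net (hi k) i) ∈ triple G
      filter_upwards [hy0, eventually_net_hi_le k hmem0] with i h1 h2
      exact ⟨y0, h1, htail _ (net_hi_notMem k i) h2⟩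
    · intro w hw
      obtain ⟨x, hx, hlt⟩ := hcof w hw
      exact (hi_le_pt k ((hKc x).mpr ⟨x, hx, le_rfl⟩)).trans hlt.le

/-- every extended entourage lies in an extended entourage with interval balls -/
theorem exists_interval (h𝓔 : IsCoarse 𝓔) (hcomp : Compatible 𝓔) {S : Set (Z 𝓔 × Z 𝓔)}
    (hS : S ∈ extStr 𝓔) :
    ∃ H ∈ extStr 𝓔, S ⊆ H ∧ ∀ z, ∃ a b, a ≤ b ∧ ball H z = Icc a b := by
  obtain ⟨hSd, E, hE, hSE⟩ := hS
  obtain ⟨G, hG, hEG, hconv⟩ := exists_convex h𝓔 hcomp hE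
  obtain ⟨G3, hG3, hGG3, hconv3⟩ := exists_convex h𝓔 hcomp (triple_mem h𝓔 hG)
  choose b hb1 hb2 using fun z => exists_upper h𝓔 hG hconv z
  choose a ha1 ha2 using fun z => exists_lower h𝓔 hG hconv z
  have hzG : ∀ z : Z 𝓔, (z, z) ∈ (ext G : Set (Z 𝓔 × Z 𝓔)) :=
    fun z => Eventually.of_forall fun _ => h𝓔.diag G hG _
  refine ⟨{p | a p.1 ≤ p.2 ∧ p.2 ≤ b p.1}, ⟨?_, G3, hG3, ?_⟩, ?_, ?_⟩
  · intro z
    exact ⟨ha2 z z (hzG z), hb2 z z (hzG z)⟩
  · rintro ⟨z, w⟩ ⟨h1, h2⟩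
    change ∀ᶠ i in atTop, (net z i, net w i) ∈ G3
    filter_upwards [ha1 z, hb1 z, eventually_le h1, eventually_le h2] with i k1 k2 k3 k4
    exact hconv3 _ _ _ _ (hGG3 k1) (hGG3 k2) k3 k4
  · rintro ⟨z, w⟩ h
    have h1 : (z, w) ∈ (ext G : Set (Z 𝓔 × Z 𝓔)) := by
      filter_upwards [hSE h] with i hi
      exact hEG hi
    exact ⟨ha2 z w h1, hb2 z w h1⟩
  · intro z
    exact ⟨a z, b z, (ha2 z z (hzG z)).trans (hb2 z z (hzG z)), rfl⟩

theorem extStr_intervalBase (h𝓔 : IsCoarse 𝓔) (hcomp : Compatible 𝓔) :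
    HasIntervalBase (extStr 𝓔) := by
  refine ⟨{H | H ∈ extStr 𝓔 ∧ ∀ z, ∃ a b, a ≤ b ∧ ball H z = Icc a b}, ⟨fun H hH => hH.1, ?_⟩,
    fun H hH => hH.2⟩
  intro S hS
  obtain ⟨H, hH, hSH, hb⟩ := exists_interval h𝓔 hcomp hS
  exact ⟨H, ⟨hH, hb⟩, hSH⟩

theorem extStr_compatible (h𝓔 : IsCoarse 𝓔) (hcomp : Compatible 𝓔) :
    Compatible (extStr 𝓔) := by
  intro S hS
  obtain ⟨H, hH, hSH, hb⟩ := exists_interval h𝓔 hcomp hS
  refine ⟨H, hH, fun z w hzw hw z' hz' => ?_⟩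
  by_contra hcon
  apply hw
  obtain ⟨a, b, -, hab⟩ := hb z
  have h1 : z' ∈ ball H z := hSH hz'
  have h2 : z ∈ ball H z := hH.1 z
  rw [hab] at h1 h2 ⊢
  exact ⟨h2.1.trans hzw.le, (not_lt.mp hcon).trans h1.2⟩

/-- the main theorem -/
theorem main (h𝓔 : IsCoarse 𝓔) (hc : IsConnected 𝓔) (hcomp : Compatible 𝓔) :
    IsCoarse (extStr 𝓔) ∧ IsConnected (extStr 𝓔) ∧ Compatible (extStr 𝓔) ∧
      HasIntervalBase (extStr 𝓔) ∧ ∃ f : X ≃ range (Z.pt : X → Z 𝓔), StrictMono f ∧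
        MacroUniform 𝓔 (subspace (extStr 𝓔) _) f ∧
        MacroUniform (subspace (extStr 𝓔) _) 𝓔 f.symm := by
  refine ⟨extStr_coarse h𝓔, extStr_connected h𝓔 hc, extStr_compatible h𝓔 hcomp,
    extStr_intervalBase h𝓔 hcomp, ?_⟩
  have hinj : Function.Injective (Z.pt : X → Z 𝓔) := by
    intro x y h
    injection h
  let f := Equiv.ofInjective (Z.pt : X → Z 𝓔) hinj
  refine ⟨f, ?_, ?_, ?_⟩
  · intro x y h
    exact pt_lt_pt h
  · intro E hE
    refine ⟨_, ⟨ext E, ext_mem h𝓔 hE, rfl⟩, ?_⟩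
    rintro x _ ⟨y, hy, rfl⟩
    exact Eventually.of_forall fun i => hy
  · rintro S' ⟨S, ⟨hSd, E, hE, hSE⟩, rfl⟩
    refine ⟨E, hE, ?_⟩
    intro z w hw
    obtain ⟨z', hz', rfl⟩ := hw
    obtain ⟨x, rfl⟩ := f.surjective z
    obtain ⟨y, rfl⟩ := f.surjective z'
    rw [Equiv.symm_apply_apply, Equiv.symm_apply_apply]
    have h1 : ((Z.pt x, Z.pt y) : Z 𝓔 × Z 𝓔) ∈ (ext E : Set (Z 𝓔 × Z 𝓔)) := hSE hz'
    obtain ⟨i, hi⟩ := h1.exists
    exact hi

end Q184.LinCoarse
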